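import Pool.Agent.MP_6a4325_al.H62.Base2
import Pool.Agent.MP_6a4325_al.H84.ZW

/-!
Transfer of the property `W`: subfields, finite dimensional representations, normal `p`-subgroups.
-/

set_option autoImplicit false

namespace Pool.Agent.MP_6a4325_al.H45

open Matrix Pool.Agent.MP_6a4325_al.H62

theorem wsub : SWsub := by
  intro F₀ F G _ _ _ _ hW m L hL
  classical
  obtain ⟨r, hr⟩ : ∃ r : F →ₗ[F₀] F₀, r 1 = 1 :=
    Module.Projective.exists_dual_eq_one F₀ (one_ne_zero : (1 : F) ≠ 0)
  let ι : MonoidAlgebra F₀ G →+* MonoidAlgebra F G := MonoidAlgebra.mapRingHom G (algebraMap F₀ F)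
  let T : MonoidAlgebra F G →+ MonoidAlgebra F₀ G :=
    { toFun := MonoidAlgebra.map r.toAddMonoidHom
      map_zero' := MonoidAlgebra.map_zero _
      map_add' := MonoidAlgebra.map_add _ }
  have hT : ∀ g c, T (MonoidAlgebra.single g c) = MonoidAlgebra.single g (r c) :=
    fun g c => MonoidAlgebra.map_single _ _ _
  have hm : ∀ (a : MonoidAlgebra F G) (x : MonoidAlgebra F₀ G), T (a * ι x) = T a * x := by
    intro a x
    induction a using MonoidAlgebra.induction_linear with
    | zero => simp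
    | add a b ha hb => rw [add_mul, map_add, ha, hb, map_add, add_mul]
    | single g c =>
      induction x using MonoidAlgebra.induction_linear with
      | zero => simp
      | add x y hx hy => rw [map_add, mul_add, map_add, hx, hy, mul_add]
      | single h q =>
        rw [MonoidAlgebra.mapRingHom_single, MonoidAlgebra.single_mul_single, hT, hT,
          MonoidAlgebra.single_mul_single, mul_comm c, ← Algebra.smul_def, map_smul, smul_eq_mul,
          mul_comm q]
  have h1 : T 1 = 1 := by rw [MonoidAlgebra.one_def, hT, hr, MonoidAlgebra.one_def]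
  let L' : Submodule (MonoidAlgebra F G) (Fin m → MonoidAlgebra F G) :=
    { carrier := {z | ∀ a : MonoidAlgebra F G, (fun i => T (a * z i)) ∈ L}
      zero_mem' := fun a => by
        convert L.zero_mem using 1
        ext1 i; simp
      add_mem' := fun {z w} hz hw a => by
        convert L.add_mem (hz a) (hw a) using 1
        ext1 i; simp [mul_add]
      smul_mem' := fun c z hz a => by
        convert hz (a * c) using 1
        ext1 i; simp [mul_assoc] }
  have hι : ∀ x ∈ L, (fun i => ι (x i)) ∈ L' := fun x hx a => by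
    convert L.smul_mem (T a) hx using 1
    ext1 i; rw [hm]; rfl
  have hL' : L' ≠ ⊤ := fun h => hL <| top_le_iff.1 fun x _ => by
    have h2 : (fun i => ι (x i)) ∈ L' := h ▸ Submodule.mem_top
    convert h2 1 using 1
    ext1 i; rw [hm, h1, one_mul]
  obtain ⟨K, i1, i2, i3, n, ρ, v, hv, hs⟩ := hW m L' hL'
  let alg : Algebra F₀ K := ((algebraMap F K).comp (algebraMap F₀ F)).toAlgebra
  have : IsScalarTower F₀ F K := IsScalarTower.of_algebraMap_eq fun _ => rfl
  refine ⟨K, i1, alg, i3, n, ρ, v, hv, fun x hx => ?_⟩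
  rw [← hs _ (hι x hx)]
  refine Finset.sum_congr rfl fun i _ => ?_
  rw [MonoidAlgebra.lift_mapRingHom_algebraMap]

namespace Ws

variable {k G : Type} [Field k] [Group G]

/-- a proper submodule of a free module has a solution in an irreducible representation -/
theorem ex_irr {m : ℕ} {L : Submodule (MonoidAlgebra k G) (Fin m → MonoidAlgebra k G)}
    (hL : L ≠ ⊤) : ∃ (M : Type) (_ : AddCommGroup M) (_ : Module k M)
      (_ : Module (MonoidAlgebra k G) M) (_ : IsScalarTower k (MonoidAlgebra k G) M)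
      (ρ : Representation k G M) (e : Fin m → M), Irr ρ ∧
      (∀ x u, ρ.asAlgebraHom x u = x • u) ∧ e ≠ 0 ∧ ∀ x ∈ L, ∑ i, x i • e i = 0 := by
  classical
  obtain ⟨N, hN, hLN⟩ := (eq_top_or_exists_le_coatom L).resolve_left hL
  let M := (Fin m → MonoidAlgebra k G) ⧸ N
  have hs : IsSimpleModule (MonoidAlgebra k G) M := isSimpleModule_iff_isCoatom.2 hN
  let ρ : Representation k G M := Representation.ofModule' M
  have hρ : ∀ x u, ρ.asAlgebraHom x u = x • u := fun x u => by
    rw [show ρ.asAlgebraHom = Algebra.lsmul k k M from Equiv.apply_symm_apply _ _]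
    rfl
  have key : ∀ x : Fin m → MonoidAlgebra k G,
      ∑ i, x i • N.mkQ (Pi.single i 1) = N.mkQ x := fun x => by
    conv_rhs => rw [pi_eq_sum_univ' x, map_sum]
    exact Finset.sum_congr rfl fun i _ => (map_smul _ _ _).symm
  refine ⟨M, inferInstance, inferInstance, inferInstance, inferInstance, ρ,
    fun i => N.mkQ (Pi.single i 1), ⟨IsSimpleModule.nontrivial (MonoidAlgebra k G) M,
      fun U hU => ?_⟩, hρ, fun h0 => hN.1 (top_le_iff.1 fun x _ => ?_), fun x hx => ?_⟩
  · let U' : Submodule (MonoidAlgebra k G) M :=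
      { U.toAddSubmonoid with
        smul_mem' := fun x u hu => by
          rw [← hρ]
          induction x using MonoidAlgebra.induction_linear with
          | zero => rw [map_zero]; exact U.zero_mem
          | add x y hx hy => rw [map_add]; exact U.add_mem hx hy
          | single g c =>
            rw [Representation.asAlgebraHom_single]
            exact U.smul_mem c (hU g u hu) }
    refine (eq_bot_or_eq_top U').imp (fun e => (Submodule.eq_bot_iff _).2 fun u hu => ?_)
      fun e => top_le_iff.1 fun u _ => ?_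
    · exact (Submodule.eq_bot_iff _).1 e u hu
    · exact (show u ∈ U' from e ▸ Submodule.mem_top)
  · refine (Submodule.Quotient.mk_eq_zero N).1 ((key x).symm.trans ?_)
    exact Finset.sum_eq_zero fun i _ => by
      rw [show N.mkQ (Pi.single i 1) = 0 from congrFun h0 i, smul_zero]
  · exact (key x).trans ((Submodule.Quotient.mk_eq_zero N).2 (hLN hx))

/-- a soluble torsion group with the maximal condition is finite -/
theorem fin_of_solv (hs : Group.IsSolvable G) (hf : ∀ K : Subgroup G, K.FG)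
    (ht : ∀ g : G, IsOfFinOrder g) : Finite G := by
  obtain ⟨n, hn⟩ := hs.solvable
  have h : ∀ n, (derivedSeries G n).index ≠ 0 := fun n => by
    induction n with
    | zero => simp
    | succ n ih =>
      have : Group.FG (derivedSeries G n) := (Group.fg_iff_subgroup_fg _).2 (hf _)
      have : Group.FG (Abelianization (derivedSeries G n)) :=
        Group.fg_of_surjective (QuotientGroup.mk'_surjective _)
      have h1 : Finite (Abelianization (derivedSeries G n)) :=
        CommGroup.finite_of_fg_isMulTorsion _ fun x => by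
          obtain ⟨y, rfl⟩ := QuotientGroup.mk'_surjective _ x
          exact MonoidHom.isOfFinOrder _ (Submonoid.isOfFinOrder_coe.1 (ht y))
      rw [derivedSeries_succ, ← Subgroup.map_subtype_commutator, Subgroup.index_map_subtype]
      exact mul_ne_zero (@Subgroup.index_ne_zero_of_finite _ _ _ h1) ih
  have h2 := h n
  rw [hn, Subgroup.index_bot] at h2
  exact Nat.finite_of_card_ne_zero h2

variable {M : Type} [AddCommGroup M] [Module k M]

/-- a finite `p`-group has a nonzero fixed vector in characteristic `p` -/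
theorem ex_fix {p : ℕ} [hp : Fact p.Prime] [CharP k p] [Finite G] (hG : IsPGroup p G)
    (ρ : Representation k G M) {w : M} (hw : w ≠ 0) : ∃ u : M, u ≠ 0 ∧ ∀ g, ρ g u = u := by
  let A := AddSubgroup.closure (Set.range fun g => ρ g w)
  have hA : ∀ g, ∀ a ∈ A, ρ g a ∈ A := fun g a ha => by
    induction ha using AddSubgroup.closure_induction with
    | mem x hx =>
      obtain ⟨g', rfl⟩ := hx
      exact AddSubgroup.subset_closure ⟨g * g', rep_mul ρ g g' w⟩
    | zero => rw [map_zero]; exact A.zero_mem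
    | add x y _ _ hx hy => rw [map_add]; exact A.add_mem hx hy
    | neg x _ hx => rw [map_neg]; exact A.neg_mem hx
  have hk : ∀ a : A, p • a = 0 := fun a => Subtype.ext <| by
    change p • (a : M) = 0
    rw [← Nat.cast_smul_eq_nsmul k, CharP.cast_eq_zero, zero_smul]
  have : AddGroup.FG A := (AddGroup.fg_iff_addSubgroup_fg _).2
    ((AddSubgroup.fg_iff _).2 ⟨_, rfl, Set.finite_range _⟩)
  have : Finite A := AddCommGroup.finite_of_fg_isAddTorsion _ fun a =>
    isOfFinAddOrder_iff_nsmul_eq_zero.2 ⟨p, hp.out.pos, hk a⟩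
  let _ : MulAction G A :=
    { smul := fun g a => ⟨ρ g a, hA g a a.2⟩
      one_smul := fun a => Subtype.ext (by change ρ 1 a = a; rw [map_one]; rfl)
      mul_smul := fun g g' a => Subtype.ext (rep_mul ρ g g' a) }
  let a : A := ⟨w, AddSubgroup.subset_closure ⟨1, by change ρ 1 w = w; rw [map_one]; rfl⟩⟩
  have h1 : addOrderOf a = p := addOrderOf_eq_prime (hk a) fun e => hw (congrArg Subtype.val e)
  obtain ⟨b, h2, h3⟩ := hG.exists_fixed_point_of_prime_dvd_card_of_fixed_point A
    (h1 ▸ addOrderOf_dvd_natCard a) (a := 0) fun g => Subtype.ext (map_zero (ρ g))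
  exact ⟨b, fun e => h3 (Subtype.ext e.symm), fun g => congrArg Subtype.val (h2 g)⟩

theorem genS_mono (ρ : Representation k G M) {H H' : Subgroup G} (h : H ≤ H') (T : Set M) :
    genS ρ H T ≤ genS ρ H' T :=
  Submodule.span_mono fun _ ⟨g, hg, e⟩ => ⟨g, h hg, e⟩

theorem aug_mono (ρ : Representation k G M) {H H' : Subgroup G} (h : H ≤ H') {U U' : Submodule k M}
    (hU : U ≤ U') : aug ρ H U ≤ aug ρ H' U' :=
  Submodule.span_mono fun _ ⟨g, hg, u, hu, e⟩ => ⟨g, h hg, u, hU hu, e⟩

/-- a property of subgroups and vectors that can be localised -/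
theorem loc {X : Set M} (V : Subgroup G → Submodule k M) (hV : Monotone V) {u : M}
    (hu : u ∈ Submodule.span k X) (hX : ∀ x ∈ X, ∃ H : Subgroup G, H.FG ∧ x ∈ V H) :
    ∃ H : Subgroup G, H.FG ∧ u ∈ V H := by
  induction hu using Submodule.span_induction with
  | mem x hx => exact hX x hx
  | zero => exact ⟨⊥, ⟨∅, by simp⟩, zero_mem _⟩
  | add x y _ _ hx hy =>
    obtain ⟨H, h1, h2⟩ := hx
    obtain ⟨H', h3, h4⟩ := hy
    exact ⟨H ⊔ H', h1.sup h3, add_mem (hV le_sup_left h2) (hV le_sup_right h4)⟩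
  | smul c x _ hx => exact hx.imp fun H h => ⟨h.1, Submodule.smul_mem _ c h.2⟩

/-- a normal `p`-subgroup acts trivially -/
theorem triv {p : ℕ} [Fact p.Prime] [CharP k p] (hs : Group.IsSolvable G) (hl : LocNoeth G)
    {S : Subgroup G} [S.Normal] (hS : IsPGroup p S) {ρ : Representation k G M} (h : Irr ρ) :
    ∀ s ∈ S, ρ s = 1 := by
  refine (h.aug_top S).resolve_right fun e => ?_
  have := h.1
  obtain ⟨v, hv⟩ := exists_ne (0 : M)
  have fg1 : ∀ g : G, (Subgroup.zpowers g).FG := fun g =>
    ⟨{g}, by rw [Finset.coe_singleton, Subgroup.zpowers_eq_closure]⟩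
  have h1 : ∀ u, ∃ H : Subgroup G, H.FG ∧ u ∈ genS ρ H {v} := fun u =>
    loc (fun H => genS ρ H {v}) (fun _ _ hH => genS_mono ρ hH _)
      ((h.gen_top hv).ge Submodule.mem_top : u ∈ gen ρ {v})
      fun x ⟨g, t, ht, e⟩ => ⟨_, fg1 g, Submodule.subset_span ⟨g, Subgroup.mem_zpowers g, t, ht, e⟩⟩
  obtain ⟨H, hH, h2⟩ := loc (fun H => aug ρ (S ⊓ H) (genS ρ H {v}))
    (fun _ _ hH => aug_mono ρ (inf_le_inf_left S hH) (genS_mono ρ hH _))
    (e.ge Submodule.mem_top : v ∈ aug ρ S ⊤) fun x ⟨a, ha, u, _, e⟩ => by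
      obtain ⟨H, h2, h3⟩ := h1 u
      exact ⟨H ⊔ Subgroup.zpowers a, h2.sup (fg1 a), Submodule.subset_span
        ⟨a, ⟨ha, Subgroup.mem_sup_right (Subgroup.mem_zpowers a)⟩, u,
          genS_mono ρ le_sup_left _ h3, e⟩⟩
  let σ := (invS_genS ρ H {v}).rep
  let v' : genS ρ H {v} := ⟨v, mem_genS ρ H rfl⟩
  have hg : gen σ {v'} = ⊤ := gen_rep_genS ρ H v
  obtain ⟨U, hU, -, h3⟩ := exists_irr_quot σ {v'} (by rw [Finset.coe_singleton, hg]) ⊥
    (fun g u hu => by rw [(Submodule.mem_bot k).1 hu, map_zero]; exact zero_mem _)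
    fun e => hv (congrArg Subtype.val
      ((Submodule.mem_bot k).1 (show v' ∈ ⊥ from e ▸ Submodule.mem_top)))
  let P := S.subgroupOf H
  have hP : IsPGroup p P := hS.comap_subtype
  let j : P →* G := H.subtype.comp P.subtype
  have hj : Function.Injective j := H.subtype_injective.comp P.subtype_injective
  have : Finite P := fin_of_solv (Group.isSolvable_of_isSolvable_injective hj)
    (fun K => fg_of_map_inj j hj (hl H hH _ fun _ ⟨x, _, e⟩ => e ▸ x.1.2)) fun g =>
      (hP g).elim fun i hi => isOfFinOrder_iff_pow_eq_one.2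
        ⟨_, pow_pos (Fact.out : p.Prime).pos i, hi⟩
  have := h3.1
  obtain ⟨w, hw⟩ := exists_ne (0 : genS ρ H {v} ⧸ U)
  obtain ⟨u, u0, hu⟩ := ex_fix hP ((σ.quotient U hU).comp P.subtype) hw
  have h4 := h3.fix P u0 fun n hn => hu ⟨n, hn⟩
  have h5 : aug ρ (S ⊓ H) (genS ρ H {v}) ≤ U.map (Submodule.subtype _) := by
    refine Submodule.span_le.2 ?_
    rintro _ ⟨a, ha, x, hx, rfl⟩
    refine ⟨σ ⟨a, ha.2⟩ ⟨x, hx⟩ - ⟨x, hx⟩, (Submodule.Quotient.eq U).1 ?_, rfl⟩
    exact LinearMap.congr_fun (h4 ⟨a, ha.2⟩ ha.1) (Submodule.Quotient.mk ⟨x, hx⟩)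
  obtain ⟨x, hx, e'⟩ := h5 h2
  have h6 : v' ∈ U := (Subtype.ext e' : x = v') ▸ hx
  exact Submodule.Quotient.nontrivial_iff.1 h3.1
    (top_le_iff.1 (hg ▸ gen_le hU fun t ht => ht ▸ h6))

end Ws

theorem fw : SFW := by
  intro k G _ _ hF m L hL
  obtain ⟨M, _, _, _, _, ρ, e, h1, -, h3, h4⟩ := Ws.ex_irr hL
  have := hF M ρ h1
  obtain ⟨K, i1, i2, i3, n, σ, κ, hinj, hκ⟩ :=
    H84.coords k G k M (RingHom.id k) fun c y => (algebraMap_smul (MonoidAlgebra k G) c y).symm
  refine ⟨K, i1, i2, i3, n, σ, fun i => κ (e i),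
    fun h0 => h3 (funext fun i => hinj ((congrFun h0 i).trans (map_zero κ).symm)), fun x hx => ?_⟩
  simp only [← hκ]
  rw [← map_sum, h4 x hx, map_zero]

theorem ws : SWS := by
  intro p _ F G Q _ _ _ _ f hf hs hl hp hW m L hL
  classical
  obtain ⟨M, _, _, _, _, ρ, e, h1, h2, h3, h4⟩ := Ws.ex_irr hL
  obtain ⟨σ, -, h5⟩ := h1.descend f hf (Ws.triv hs hl hp h1)
  have h6 : ∀ x, σ.asAlgebraHom (MonoidAlgebra.mapDomain f x) = ρ.asAlgebraHom x := fun x => by
    induction x using MonoidAlgebra.induction_linear with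
    | zero => rw [MonoidAlgebra.mapDomain_zero, map_zero, map_zero]
    | add x y hx hy => rw [MonoidAlgebra.mapDomain_add, map_add, map_add, hx, hy]
    | single g c => rw [MonoidAlgebra.mapDomain_single, Representation.asAlgebraHom_single,
        Representation.asAlgebraHom_single, h5]
  let L' : Submodule (MonoidAlgebra F Q) (Fin m → MonoidAlgebra F Q) :=
    { carrier := {y | ∑ i, σ.asAlgebraHom (y i) (e i) = 0}
      add_mem' := fun {y z} hy hz => by
        simp only [Set.mem_ofPred_eq, Pi.add_apply, map_add, LinearMap.add_apply,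
          Finset.sum_add_distrib] at *
        rw [hy, hz, add_zero]
      zero_mem' := by simp
      smul_mem' := fun c y hy => by
        simp only [Set.mem_ofPred_eq, Pi.smul_apply, smul_eq_mul, map_mul,
          Module.End.mul_apply] at *
        rw [← map_sum, hy, map_zero] }
  have hL' : L' ≠ ⊤ := fun h => h3 <| funext fun i => by
    have h7 : ∑ j, σ.asAlgebraHom ((Pi.single i 1 : Fin m → MonoidAlgebra F Q) j) (e j) = 0 :=
      show Pi.single i 1 ∈ L' from h ▸ Submodule.mem_top
    rw [Finset.sum_eq_single i (fun j _ hj => by simp [hj]) (by simp)] at h7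
    simpa using h7
  obtain ⟨K, i1, i2, i3, n, τ, v, hv, h7⟩ := hW m L' hL'
  refine ⟨K, i1, i2, i3, n, τ.comp f, v, hv, fun x hx => ?_⟩
  simp only [H87.act_map]
  refine h7 _ ?_
  change ∑ i, σ.asAlgebraHom (MonoidAlgebra.mapDomain f (x i)) (e i) = 0
  simp only [h6, h2]
  exact h4 x hx

end Pool.Agent.MP_6a4325_al.H45
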