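import Pool.Agent.MP_6a4325_al.H62.Base2

/-!
Irreducible representations of polycyclic groups over absolute fields are finite dimensional.
-/

set_option autoImplicit false

namespace Pool.Agent.MP_6a4325_al.H45

open Pool.Agent.MP_6a4325_al.H62

namespace Rose

variable {k G M : Type} [Field k] [Group G] [AddCommGroup M] [Module k M]
  {ρ : Representation k G M}

/-- the annihilator of a vector -/
def ann {R : Type} [CommRing R] [Algebra k R] (α : R →ₐ[k] Module.End k M) (v : M) : Ideal R where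
  carrier := {x | α x v = 0}
  add_mem' := fun {x y} hx hy => by
    change α (x + y) v = 0
    rw [map_add, LinearMap.add_apply, hx, hy, add_zero]
  zero_mem' := by simp
  smul_mem' := fun x y hy => by
    change α (x * y) v = 0
    rw [map_mul, Module.End.mul_apply, hy, map_zero]

/-- a prime annihilator, its stabiliser and the vectors that it kills -/
theorem ex_prime {R : Type} [CommRing R] [Algebra k R] [IsNoetherianRing R] (h : Irr ρ)
    (α : R →ₐ[k] Module.End k M) (c : G → R → R)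
    (hc : ∀ g x u, α (c g x) (ρ g u) = ρ g (α x u)) :
    ∃ (v : M) (N : Subgroup G) (U : Submodule k M) (hU : InvS ρ N U), v ≠ 0 ∧ (ann α v).IsPrime ∧
      (∀ g, g ∈ N ↔ ann α (ρ g v) = ann α v) ∧ Irr hU.rep := by
  have := h.1
  obtain ⟨v₀, hv₀⟩ := exists_ne (0 : M)
  obtain ⟨_, ⟨v, hv, rfl⟩, hmax⟩ := (set_has_maximal_iff_noetherian.2
    (inferInstance : IsNoetherian R R)) {I : Ideal R | ∃ v, v ≠ 0 ∧ I = ann α v} ⟨_, v₀, hv₀, rfl⟩
  have mem : ∀ x u, x ∈ ann α u ↔ α x u = 0 := fun _ _ => Iff.rfl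
  have inj : ∀ g u, ρ g u = 0 → u = 0 := fun g u e => by rw [← rep_inv ρ g u, e, map_zero]
  have mx : ∀ w, w ≠ 0 → ann α v ≤ ann α w → ann α w = ann α v := fun w hw hle =>
    by_contra fun e => hmax _ ⟨w, hw, rfl⟩ (lt_of_le_of_ne hle (Ne.symm e))
  have tr : ∀ g u w, ann α u ≤ ann α w → ann α (ρ g u) ≤ ann α (ρ g w) := fun g u w hle x hx => by
    have h1 := hc g⁻¹ x (ρ g u)
    rw [rep_inv, (mem _ _).1 hx, map_zero] at h1
    have h2 := hc g⁻¹ x (ρ g w)
    rw [rep_inv, (mem _ _).1 (hle h1)] at h2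
    exact inj _ _ h2.symm
  have tr' : ∀ g u w, ann α u = ann α w → ann α (ρ g u) = ann α (ρ g w) := fun g u w e =>
    le_antisymm (tr g u w e.le) (tr g w u e.ge)
  have cm : ∀ x y u, α x (α y u) = α y (α x u) := fun x y u => by
    rw [← Module.End.mul_apply, ← map_mul, mul_comm, map_mul, Module.End.mul_apply]
  have hP : (ann α v).IsPrime := ⟨fun e => hv (by
      have h1 : (1 : R) ∈ ann α v := e ▸ Submodule.mem_top
      simpa [mem] using h1), fun {x y} hxy => by
    refine or_iff_not_imp_right.2 fun hy => ?_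
    rw [← mx (α y v) hy fun z hz => by rw [mem, cm, (mem _ _).1 hz, map_zero], mem,
      ← Module.End.mul_apply, ← map_mul]
    exact hxy⟩
  let N : Subgroup G :=
    { carrier := {g | ann α (ρ g v) = ann α v}
      mul_mem' := fun {g g'} hg hg' => by
        change ann α (ρ (g * g') v) = _
        rw [rep_mul, tr' g _ _ hg', hg]
      one_mem' := by
        change ann α (ρ 1 v) = _
        rw [map_one]; rfl
      inv_mem' := fun {g} hg => by
        have h1 := tr' g⁻¹ _ _ hg
        rw [rep_inv] at h1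
        exact h1.symm }
  let U : Submodule k M :=
    { carrier := {u | ann α v ≤ ann α u}
      add_mem' := fun {u w} hu hw x hx => by
        rw [mem, map_add, (mem _ _).1 (hu hx), (mem _ _).1 (hw hx), add_zero]
      zero_mem' := fun x _ => map_zero _
      smul_mem' := fun r u hu x hx => by rw [mem, map_smul, (mem _ _).1 (hu hx), smul_zero] }
  have hU : InvS ρ N U := fun g hg u hu => (show ann α (ρ g v) = _ from hg).ge.trans (tr g _ _ hu)
  have hvU : v ∈ U := le_refl (ann α v)
  refine ⟨v, N, U, hU, hv, hP, fun _ => Iff.rfl,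
    ⟨⟨v, hvU⟩, 0, fun e => hv (congrArg Subtype.val e)⟩, fun U' hU' => ?_⟩
  refine or_iff_not_imp_left.2 fun hne => ?_
  let W : Submodule k M := Submodule.span k {x | ∃ g, g ∉ N ∧ ∃ u ∈ U', x = ρ g u}
  have hW : ∀ w ∈ W, ∃ r, r ∉ ann α v ∧ α r w = 0 := fun w hw => by
    induction hw using Submodule.span_induction with
    | mem x hx =>
      obtain ⟨g, hg, u, -, rfl⟩ := hx
      have h1 : ¬ann α (ρ g v) ≤ ann α v := fun hle => hg <| by
        have h2 := tr g⁻¹ _ _ hle
        rw [rep_inv] at h2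
        have h3 := tr' g _ _ (mx _ (fun e => hv (inj _ _ e)) h2)
        rw [rep_inv'] at h3
        exact h3.symm
      obtain ⟨r, h2, h3⟩ := SetLike.not_le_iff_exists.1 h1
      exact ⟨r, h3, tr g _ _ u.2 h2⟩
    | zero => exact ⟨1, fun e => hP.ne_top ((Ideal.eq_top_iff_one _).2 e), map_zero _⟩
    | add x y _ _ hx hy =>
      obtain ⟨r, h1, h2⟩ := hx
      obtain ⟨s, h3, h4⟩ := hy
      refine ⟨r * s, fun e => (hP.mem_or_mem e).elim h1 h3, ?_⟩
      rw [map_mul, Module.End.mul_apply, map_add, map_add, cm, h2, h4, map_zero, map_zero, add_zero]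
    | smul a x _ hx =>
      obtain ⟨r, h1, h2⟩ := hx
      exact ⟨r, h1, by rw [map_smul, h2, smul_zero]⟩
  have key : ∀ g, ∀ u ∈ U', ρ g u ∈ U'.map U.subtype ⊔ W := fun g u hu => by
    by_cases hg : g ∈ N
    · exact Submodule.mem_sup_left ⟨_, hU' ⟨g, hg⟩ u hu, rfl⟩
    · exact Submodule.mem_sup_right (Submodule.subset_span ⟨g, hg, u, hu, rfl⟩)
  have hI : Inv ρ (U'.map U.subtype ⊔ W) := fun g x hx => by
    obtain ⟨_, ⟨u, hu, rfl⟩, w, hw, rfl⟩ := Submodule.mem_sup.1 hx
    rw [map_add]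
    refine add_mem (key g u hu) ?_
    clear hx
    induction hw using Submodule.span_induction with
    | mem x hx =>
      obtain ⟨g', -, u', hu', rfl⟩ := hx
      rw [← rep_mul]
      exact key _ _ hu'
    | zero => rw [map_zero]; exact zero_mem _
    | add x y _ _ hx hy => rw [map_add]; exact add_mem hx hy
    | smul a x _ hx => rw [map_smul]; exact Submodule.smul_mem _ a hx
  have htop : U'.map U.subtype ⊔ W = ⊤ := (h.2 _ hI).resolve_left fun e => hne <| by
    refine (Submodule.eq_bot_iff _).2 fun u hu => Subtype.ext ?_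
    exact (Submodule.eq_bot_iff _).1 e u (Submodule.mem_sup_left ⟨u, hu, rfl⟩)
  refine top_le_iff.1 fun u _ => ?_
  obtain ⟨_, ⟨u', hu', rfl⟩, w, hw, e⟩ :=
    Submodule.mem_sup.1 (show (u : M) ∈ U'.map U.subtype ⊔ W from htop ▸ Submodule.mem_top)
  have hwU : w ∈ U := by
    rw [← add_sub_cancel_left (U.subtype u') w, e]
    exact sub_mem u.2 u'.2
  obtain ⟨r, h1, h2⟩ := hW w hw
  have w0 : w = 0 := by_contra fun w0 => h1 (mx w w0 hwU ▸ h2)
  rw [w0, add_zero] at e
  exact (Subtype.ext e : u' = u) ▸ hu'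

/-- a common exponent -/
theorem ex_pow {A : Subgroup G} (hA : A.FG) (hc : Cm A A) (D : Subgroup G)
    (h : ∀ a ∈ A, ∃ m : ℕ, 0 < m ∧ a ^ m ∈ D) : ∃ m : ℕ, 0 < m ∧ hc.pw m ≤ D := by
  obtain ⟨T, hT⟩ := hA
  have hTA : ∀ t : T, (t : G) ∈ A := fun t => hT ▸ Subgroup.subset_closure t.2
  choose m hm hD using fun t : T => h t (hTA t)
  refine ⟨∏ t, m t, Finset.prod_pos fun t _ => hm t, ?_⟩
  rintro _ ⟨a, ha, rfl⟩
  rw [← hT] at ha
  induction ha using Subgroup.closure_induction with
  | mem x hx =>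
    obtain ⟨e, he⟩ := Finset.dvd_prod_of_mem m (Finset.mem_univ ⟨x, hx⟩)
    rw [he, pow_mul]
    exact D.pow_mem (hD ⟨x, hx⟩) e
  | one => rw [one_pow]; exact D.one_mem
  | mul x y hx hy h1 h2 =>
    rw [(show Commute x y from hc x (hT ▸ hx) y (hT ▸ hy)).mul_pow]
    exact D.mul_mem h1 h2
  | inv x _ h1 => rw [inv_pow]; exact D.inv_mem h1

/-- if every element has a power that fixes a vector then some power acts trivially -/
theorem of_fix (h : Irr ρ) {A : Subgroup G} [A.Normal] (hA : A.FG) (hc : Cm A A) {u : M}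
    (hu : u ≠ 0) (hf : ∀ a ∈ A, ∃ m : ℕ, 0 < m ∧ ρ (a ^ m) u = u) :
    ∃ m : ℕ, 0 < m ∧ ∀ n ∈ hc.pw m, ρ n = 1 := by
  let D : Subgroup G :=
    { carrier := {g | ρ g u = u}
      mul_mem' := fun {g g'} hg hg' => by
        change ρ (g * g') u = u
        rw [rep_mul, hg', hg]
      one_mem' := by
        change ρ 1 u = u
        rw [map_one]; rfl
      inv_mem' := fun {g} hg => by
        change ρ g⁻¹ u = u
        conv_lhs => rw [← show ρ g u = u from hg, rep_inv] }
  obtain ⟨m, hm, hD⟩ := ex_pow hA hc D hf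
  have := hc.pw_normal m
  exact ⟨m, hm, h.fix _ hu fun n hn => hD hn⟩

theorem IsCh.pow {K : Type} [Field K] {A : Subgroup G} {ψ : G → K} (h : IsCh A ψ) {a : G}
    (ha : a ∈ A) (m : ℕ) : ψ (a ^ m) = ψ a ^ m := by
  induction m with
  | zero => rw [pow_zero, pow_zero, h.1]
  | succ m ih => rw [pow_succ, pow_succ, h.2 _ (A.pow_mem ha m) a ha, ih]

theorem evc_map {B K : Type} [Group B] [Field K] [Algebra k K] (j : B → G) (ψ : G → K) (g : G)
    (x : MonoidAlgebra k B) :
    evc ψ g (x.mapDomain j) = x.coeff.sum fun b r => r • ψ (g * j b * g⁻¹) :=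
  Finsupp.sum_mapDomain_index (fun _ => zero_smul _ _) fun _ _ _ => add_smul _ _ _

/-- a power of the plinth acts trivially -/
theorem core {p : ℕ} [Fact p.Prime] [CharP k p] [IsAlgClosed k] (hk : Absolute k)
    (hE : SThE) (hB : SBerg) (hH : SHall) (hG : H62.Poly G) {A : Subgroup G} (hA : Plinth A)
    (hC : CommAct A) (h : Irr ρ) (hI : ∀ N : Subgroup G, N.index = 0 → FD k N)
    {B : Type} [CommGroup B] [IsNoetherianRing (MonoidAlgebra k B)] (j : B →* G)
    (hj : Function.Injective j) (hr : ∀ a, a ∈ A ↔ ∃ b, j b = a) :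
    ∃ m : ℕ, 0 < m ∧ ∀ n ∈ hA.2.2.2.1.pw m, ρ n = 1 := by
  classical
  have hn := hA.1
  have hfg := hA.2.2.1
  have hc := hA.2.2.2.1
  have jA : ∀ b, j b ∈ A := fun b => (hr _).2 ⟨b, rfl⟩
  choose γ hγ using fun g b => (hr _).1 (hn.conj_mem (j b) (jA b) g)
  let α := Representation.asAlgebraHom (ρ.comp j : Representation k B M)
  have α1 : ∀ b r, α (MonoidAlgebra.single b r) = r • ρ (j b) := fun b r =>
    Representation.asAlgebraHom_single _ b r
  have αj : ∀ x, ρ.asAlgebraHom (x.mapDomain j) = α x := fun x => by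
    induction x using MonoidAlgebra.induction_linear with
    | zero => rw [MonoidAlgebra.mapDomain_zero, map_zero, map_zero]
    | add x y hx hy => rw [MonoidAlgebra.mapDomain_add, map_add, map_add, hx, hy]
    | single b r => rw [MonoidAlgebra.mapDomain_single, α1, Representation.asAlgebraHom_single]
  have hα : ∀ g (x : MonoidAlgebra k B) u,
      α (x.mapDomain (γ g)) (ρ g u) = ρ g (α x u) := fun g x u => by
    induction x using MonoidAlgebra.induction_linear with
    | zero => simp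
    | add x y hx hy =>
      rw [MonoidAlgebra.mapDomain_add, map_add, map_add, LinearMap.add_apply, LinearMap.add_apply,
        map_add, hx, hy]
    | single b r =>
      rw [MonoidAlgebra.mapDomain_single, α1, α1, hγ, LinearMap.smul_apply, LinearMap.smul_apply,
        map_smul, rep_mul, rep_inv, rep_mul]
  obtain ⟨v, N, U, hU, hv, hP, hN, hirr⟩ := ex_prime h α (fun g x => x.mapDomain (γ g)) hα
  have sup : ∀ x : MonoidAlgebra k B, Supp A (x.mapDomain j) := fun x g hg => by
    obtain ⟨b, -, rfl⟩ := Finset.mem_image.1 (Finsupp.mapDomain_support hg)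
    exact jA b
  by_cases hP0 : ann α v = ⊥
  · obtain ⟨μ, μ0, μA, hμ⟩ := hH k G M ρ hG A hn hc hA.2.2.2.2.1 {v}
      (by rw [Finset.coe_singleton]; exact h.gen_top hv) v fun x hx e => by
        have h1 := MonoidAlgebra.mapDomain_comapDomain (f := j) (x := x)
          (fun g hg => (hr g).1 (hx g hg)) hj
        rw [← h1, αj] at e
        have h2 : x.comapDomain j hj ∈ ann α v := e
        rw [hP0, Ideal.mem_bot] at h2
        rw [← h1, h2, MonoidAlgebra.mapDomain_zero]
    obtain ⟨ψ, hψ, hψ'⟩ := hE p k G hk A hA hC μ μ0 μA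
    obtain ⟨m, hm, hD⟩ := ex_pow hfg hc (hψ.hom.ker.map A.subtype) fun a ha => by
      obtain ⟨m, hm, e⟩ := isOfFinOrder_iff_pow_eq_one.1 (hk _ (hψ.ne_zero ha))
      exact ⟨m, hm, ⟨a ^ m, A.pow_mem ha m⟩, Units.ext ((IsCh.pow hψ ha m).trans e), rfl⟩
    have := hc.pw_normal m
    refine ⟨m, hm, (h.aug_top _).resolve_right fun e => hμ ψ hψ hψ' (top_le_iff.1 ?_)⟩
    refine e.ge.trans (Submodule.span_le.2 ?_)
    rintro _ ⟨a, ha, u, -, rfl⟩
    obtain ⟨a', h1, rfl⟩ := hD ha
    have h2 : ψ a' = 1 := congrArg Units.val h1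
    exact Submodule.subset_span ⟨a', a'.2, u, trivial, by rw [h2, one_smul]; rfl⟩
  by_cases hN0 : N.index = 0
  · have := hI N hN0 U hU.rep hirr
    have AN : A ≤ N := fun a ha => (hN a).2 <| by
      obtain ⟨b, rfl⟩ := (hr a).1 ha
      have h1 : ∀ x, α x (ρ (j b) v) = ρ (j b) (α x v) := fun x => by
        have h2 := congrArg (fun y => α y v) (mul_comm x (MonoidAlgebra.single b 1))
        simpa only [map_mul, α1, one_smul, Module.End.mul_apply] using h2
      ext x
      change α x _ = 0 ↔ α x v = 0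
      rw [h1]
      exact ⟨fun e => by rw [← rep_inv ρ (j b) (α x v), e, map_zero], fun e => by rw [e, map_zero]⟩
    obtain ⟨u, -, u0, hu⟩ := exists_eigen (fun a : A => ρ a) U
      (Submodule.nontrivial_iff_ne_bot.1 hirr.1)
      (fun a b u _ => by rw [← rep_mul, ← rep_mul, hc a a.2 b b.2]) fun a => hU a (AN a.2)
    refine of_fix h hfg hc u0 fun a ha => ?_
    obtain ⟨c, e⟩ := hu ⟨a, ha⟩
    have c0 : c ≠ 0 := fun c0 => u0 <| by
      rw [← rep_inv ρ a u, show ρ a u = c • u from e, c0, zero_smul, map_zero]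
    obtain ⟨m, hm, e'⟩ := isOfFinOrder_iff_pow_eq_one.1 (hk c c0)
    have h1 : ∀ i : ℕ, ρ (a ^ i) u = c ^ i • u := fun i => by
      induction i with
      | zero => simp
      | succ i ih => rw [pow_succ, rep_mul, show ρ a u = c • u from e, map_smul, ih, smul_smul,
          pow_succ']
    exact ⟨m, hm, by rw [h1, e', one_smul]⟩
  · let θ := IsScalarTower.toAlgHom k (MonoidAlgebra k B) (ann α v).ResidueField
    have hθ : ∀ x, θ x = 0 ↔ α x v = 0 := fun x => Ideal.algebraMap_residueField_eq_zero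
    let φ : G → (ann α v).ResidueField := j.toFun.extend (fun b => θ (.single b 1)) 0
    have φj : ∀ b, φ (j b) = θ (.single b 1) := fun b => hj.extend_apply _ _ b
    have hφ : IsCh A φ := ⟨by rw [← map_one j, φj, ← MonoidAlgebra.one_def, map_one],
      fun a ha b hb => by
        obtain ⟨a, rfl⟩ := (hr a).1 ha
        obtain ⟨b, rfl⟩ := (hr b).1 hb
        rw [← map_mul, φj, φj, φj, ← map_mul, MonoidAlgebra.single_mul_single, one_mul]⟩
    obtain ⟨x, hx, x0⟩ := (Submodule.ne_bot_iff _).1 hP0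
    have hf := hB p k _ G hk A hA N ⟨hN0⟩ φ hφ (x.mapDomain j)
      (fun e => x0 (MonoidAlgebra.mapDomain_injective hj
        (e.trans (MonoidAlgebra.mapDomain_zero _).symm))) (sup x) fun g hg => by
        have h1 : x.mapDomain (γ g) ∈ ann α (ρ g v) := by
          change α _ _ = 0
          rw [hα, show α x v = 0 from hx, map_zero]
        rw [(hN g).1 hg] at h1
        rw [evc_map, ← (hθ _).2 h1]
        clear hx x0 h1
        induction x using MonoidAlgebra.induction_linear with
        | zero => simp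
        | add x y hx hy =>
          rw [MonoidAlgebra.mapDomain_add, map_add, ← hx, ← hy, MonoidAlgebra.coeff_add]
          exact Finsupp.sum_add_index' (fun _ => zero_smul _ _) fun _ _ _ => add_smul _ _ _
        | single b r =>
          rw [MonoidAlgebra.mapDomain_single, MonoidAlgebra.coeff_single,
            Finsupp.sum_single_index (by rw [zero_smul]), ← hγ, φj, ← map_smul,
            MonoidAlgebra.smul_single, smul_eq_mul, mul_one]
    refine of_fix h hfg hc hv fun a ha => ?_
    obtain ⟨m, hm, e⟩ := isOfFinOrder_iff_pow_eq_one.1 (hf a ha)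
    obtain ⟨b, rfl⟩ := (hr a).1 ha
    rw [← IsCh.pow hφ ha, ← map_pow, φj] at e
    have h1 := (hθ (.single (b ^ m) 1 - 1)).1 (by rw [map_sub, e, map_one, sub_self])
    rw [map_sub, α1, map_one, one_smul, LinearMap.sub_apply, sub_eq_zero, map_pow] at h1
    exact ⟨m, hm, h1⟩

end Rose

open Rose in
theorem rose : PCApi → SNoe → SFI → SPl → SMal → SThE → SBerg → SHall → SRose := by
  intro hpc hN hF hP hM hE hB hH p _ k G _ _ _ _ hk ⟨n, hG⟩
  induction n using Nat.strong_induction_on generalizing G with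
  | _ n ih =>
    have main : ∀ (H : Type) [Group H], PC n H → ∀ A : Subgroup H, Plinth A → CommAct A →
        FD k H := fun H _ hH' A hA hC M _ _ ρ h => by
      have hc := hA.2.2.2.1
      have hNo := hN k A ⟨n, hpc.sub n H A A.subtype A.subtype_injective hH'⟩
      obtain ⟨m, hm, h1⟩ := @core k H M _ _ _ _ ρ p _ _ _ hk hE hB hH ⟨n, hH'⟩ A hA hC h
        (fun N h0 => by
          obtain ⟨m, h1, h2⟩ := hpc.subInf n H N h0 hH'
          exact ih m h1 N h2) A hc.commGroup hNo A.subtype A.subtype_injective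
        fun a => ⟨fun ha => ⟨⟨a, ha⟩, rfl⟩, fun ⟨b, e⟩ => e ▸ b.2⟩
      have := hA.1
      have := hc.pw_normal m
      obtain ⟨σ, h2, -⟩ := h.descend (QuotientGroup.mk' (hc.pw m))
        (QuotientGroup.mk'_surjective _) fun g hg => h1 g ((QuotientGroup.eq_one_iff g).1 hg)
      obtain ⟨a, ha⟩ := Subgroup.ne_bot_iff_exists_ne_one.1 hA.2.1
      have hinf : Infinite (QuotientGroup.mk' (hc.pw m)).ker := by
        rw [QuotientGroup.ker_mk']
        refine not_finite_iff_infinite.1 fun hf => ha (Subtype.ext (hA.2.2.2.2.1 a a.2 ?_))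
        have h3 := (hc.pw m).subtype.isOfFinOrder
          (isOfFinOrder_of_finite (⟨a ^ m, a, a.2, rfl⟩ : hc.pw m))
        exact IsOfFinOrder.of_pow h3 hm.ne'
      obtain ⟨m', h3, h4⟩ := hpc.quotInf n H _ _ (QuotientGroup.mk'_surjective _) hinf hH'
      exact ih m' h3 _ h4 M σ h2
    rcases finite_or_infinite G with hf | hf
    · intro M _ _ ρ h
      have := h.1
      obtain ⟨v, hv⟩ := exists_ne (0 : M)
      refine ⟨h.gen_top hv ▸ Submodule.fg_span ((Set.finite_range fun g => ρ g v).subset ?_)⟩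
      rintro _ ⟨g, _, rfl, rfl⟩
      exact ⟨g, rfl⟩
    · obtain ⟨K, hK, A, hA⟩ := hP G ⟨n, hG⟩ hf
      have h1 := hpc.sub n G K K.subtype K.subtype_injective hG
      obtain ⟨L, hL, -, h2, h3⟩ := hM K (hpc.solv K ⟨n, h1⟩) A hA
      exact hF k G K hK (hF k K L hL
        (main L (hpc.sub n K L L.subtype L.subtype_injective h1) _ h2 h3))

end Pool.Agent.MP_6a4325_al.H45
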