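import Pool.Agent.MP_6a4325_al.H62.Base
import Pool.Agent.MP_3312ae_al.H59.Schur

/-!
Finitely generated torsion groups whose consistent systems have finite dimensional solutions
are finite.
-/

set_option autoImplicit false

namespace Pool.Agent.MP_6a4325_al.H62

open Matrix

/-- the minimum principle -/
theorem tor_min {G : Type} [Group G] (S : Finset G) (f : G → ℚ) (hf : (Set.range f).Finite)
    (τ : G → G → G) (h : ∀ g, ∑ s ∈ S, f (τ g s) ≤ ((S.card : ℚ) + 1) * f g) (g : G) :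
    0 ≤ f g := by
  obtain ⟨_, ⟨g₀, rfl⟩, h0⟩ := Set.exists_min_image (Set.range f) id hf (Set.range_nonempty f)
  have h1 : ∀ x, f g₀ ≤ f x := fun x => h0 _ ⟨x, rfl⟩
  have h2 : ∑ _s ∈ S, f g₀ ≤ ∑ s ∈ S, f (τ g₀ s) := Finset.sum_le_sum fun s _ => h1 _
  rw [Finset.sum_const, nsmul_eq_mul] at h2
  have h3 := h g₀
  have h4 := h1 g
  nlinarith

/-- the element of the group algebra attached to a finite set -/
noncomputable def torB {G : Type} [Group G] (S : Finset G) : MonoidAlgebra ℚ G :=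
  MonoidAlgebra.single 1 ((S.card : ℚ) + 1) - ∑ s ∈ S, MonoidAlgebra.single s 1

theorem coeff_mul_torB {G : Type} [Group G] (S : Finset G) (a : MonoidAlgebra ℚ G) (g : G) :
    (a * torB S).coeff g = ((S.card : ℚ) + 1) * a.coeff g - ∑ s ∈ S, a.coeff (g * s⁻¹) := by
  simp [torB, mul_sub, Finset.mul_sum, mul_comm, mul_add]
  ring

theorem finite_of_torB {G : Type} [Group G] (S : Finset G)
    (hS : Subgroup.closure (↑S : Set G) = ⊤) (ht : ∀ g : G, IsOfFinOrder g)
    (a : MonoidAlgebra ℚ G) (ha : a * torB S = 1) : Finite G := by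
  classical
  have h1 : ∀ g, ((S.card : ℚ) + 1) * a.coeff g - ∑ s ∈ S, a.coeff (g * s⁻¹) =
      if g = 1 then 1 else 0 := by
    intro g
    rw [← coeff_mul_torB, ha, MonoidAlgebra.one_def, MonoidAlgebra.coeff_single,
      Finsupp.single_apply]
    simp only [eq_comm]
  have h2 : ∀ g, ∑ s ∈ S, a.coeff (g * s⁻¹) ≤ ((S.card : ℚ) + 1) * a.coeff g := by
    intro g
    have := h1 g
    split_ifs at this <;> linarith
  have h3 : ∀ g, 0 ≤ a.coeff g := tor_min S a.coeff a.coeff.finite_range (fun g s => g * s⁻¹) h2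
  have hc : (0 : ℚ) < (S.card : ℚ) + 1 := by positivity
  have h4 : 0 < a.coeff 1 := by
    have h5 := h1 1
    rw [if_pos rfl] at h5
    have h6 : 0 ≤ ∑ s ∈ S, a.coeff (1 * s⁻¹) := Finset.sum_nonneg fun s _ => h3 _
    exact (mul_pos_iff_of_pos_left hc).mp (by linarith)
  have h5 : ∀ x ∈ Subgroup.closure (↑S : Set G), ∀ g, 0 < a.coeff g → 0 < a.coeff (g * x) := by
    intro x hx
    induction hx using Subgroup.closure_induction with
    | mem s hs =>
      intro g hg
      have h6 := h2 (g * s)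
      have h7 : a.coeff (g * s * s⁻¹) ≤ ∑ t ∈ S, a.coeff (g * s * t⁻¹) :=
        Finset.single_le_sum (f := fun t => a.coeff (g * s * t⁻¹)) (fun t _ => h3 _) hs
      rw [mul_inv_cancel_right] at h7
      exact (mul_pos_iff_of_pos_left hc).mp (by linarith)
    | one => intro g hg; rwa [mul_one]
    | mul x y _ _ hx hy => intro g hg; rw [← mul_assoc]; exact hy _ (hx _ hg)
    | inv x _ hx =>
      have h6 : ∀ (k : ℕ) g, 0 < a.coeff g → 0 < a.coeff (g * x ^ k) := by
        intro k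
        induction k with
        | zero => intro g hg; rwa [pow_zero, mul_one]
        | succ k ih => intro g hg; rw [pow_succ, ← mul_assoc]; exact hx _ (ih _ hg)
      obtain ⟨k, hk, hk1⟩ := isOfFinOrder_iff_pow_eq_one.mp (ht x)
      obtain ⟨k, rfl⟩ := Nat.exists_eq_add_one_of_ne_zero hk.ne'
      rw [pow_succ] at hk1
      rw [← eq_inv_of_mul_eq_one_left hk1]
      exact h6 k
  have h6 : (Set.univ : Set G) ⊆ ↑a.coeff.support := by
    intro x _
    have := h5 x (hS ▸ Subgroup.mem_top x) 1 h4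
    rw [one_mul] at this
    exact Finsupp.mem_support_iff.mpr this.ne'
  exact Set.finite_univ_iff.mp (a.coeff.support.finite_toSet.subset h6)

theorem finite_range_of_tor {G K : Type} [Group G] [Group.FG G] (ht : ∀ g : G, IsOfFinOrder g)
    [Field K] {n : ℕ} (ρ : G →* Matrix (Fin n) (Fin n) K) : (Set.range ρ).Finite := by
  let σ := (Units.coeHom (Matrix (Fin n) (Fin n) K)).comp ρ.toHomUnits.range.subtype
  have hσ : Function.Injective σ := Units.val_injective.comp Subtype.val_injective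
  have h1 : ∀ x : ρ.toHomUnits.range, IsOfFinOrder x := by
    intro x
    obtain ⟨g, rfl⟩ := ρ.toHomUnits.rangeRestrict_surjective x
    exact MonoidHom.isOfFinOrder _ (ht g)
  have h2 : Finite ρ.toHomUnits.range := Pool.Agent.MP_3312ae_al.H59.schur h1 σ hσ
  refine (Set.finite_range σ).subset ?_
  rintro _ ⟨g, rfl⟩
  exact ⟨ρ.toHomUnits.rangeRestrict g, rfl⟩

theorem not_sol_torB {G : Type} [Group G] [Group.FG G] (ht : ∀ g : G, IsOfFinOrder g)
    (S : Finset G) : ¬ Sol G {torB S} := by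
  rintro ⟨K, _, _, _, n, ρ, v, hv, hb⟩
  have h0 := hb _ rfl
  obtain ⟨l, hl⟩ : ∃ l : (Fin n → K) →ₗ[ℚ] ℚ, l v ≠ 0 := by
    by_contra hcon
    push Not at hcon
    exact hv ((Module.forall_dual_apply_eq_zero_iff ℚ v).mp hcon)
  have h1 : ∀ g, ∑ s ∈ S, l (ρ (g * s) *ᵥ v) = ((S.card : ℚ) + 1) * l (ρ g *ᵥ v) := by
    intro g
    have h2 : ρ g *ᵥ (act ℚ ρ (torB S) *ᵥ v) = 0 := by rw [h0, Matrix.mulVec_zero]
    rw [torB, map_sub, map_sum, act_single, map_one, Matrix.sub_mulVec, Matrix.sum_mulVec,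
      Matrix.smul_mulVec, Matrix.one_mulVec, Matrix.mulVec_sub, Matrix.mulVec_sum,
      Matrix.mulVec_smul, sub_eq_zero] at h2
    rw [← smul_eq_mul, ← map_smul, h2, map_sum]
    refine Finset.sum_congr rfl fun s _ => ?_
    rw [act_single_one, Matrix.mulVec_mulVec, map_mul]
  have hf := finite_range_of_tor ht ρ
  have hf1 : (Set.range fun g => l (ρ g *ᵥ v)).Finite := by
    refine (hf.image fun M => l (M *ᵥ v)).subset ?_
    rintro _ ⟨g, rfl⟩
    exact ⟨_, ⟨g, rfl⟩, rfl⟩
  have hf2 : (Set.range fun g => -l (ρ g *ᵥ v)).Finite := by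
    refine (hf.image fun M => -l (M *ᵥ v)).subset ?_
    rintro _ ⟨g, rfl⟩
    exact ⟨_, ⟨g, rfl⟩, rfl⟩
  have h3 := tor_min S _ hf1 (fun g s => g * s) (fun g => (h1 g).le) 1
  have h4 := tor_min S _ hf2 (fun g s => g * s) (fun g => by
    rw [Finset.sum_neg_distrib, h1 g, mul_neg]) 1
  simp only [map_one, Matrix.one_mulVec] at h3 h4
  exact hl (by linarith)

theorem tor : STor := by
  intro G _ hfg hW ht
  obtain ⟨S, hS⟩ := hfg.out
  by_contra hinf
  refine not_sol_torB ht S (hW _ fun T hT htop => hinf ?_)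
  have h1 : Ideal.span ({torB S} : Set (MonoidAlgebra ℚ G)) = ⊤ :=
    top_le_iff.mp (htop ▸ Ideal.span_mono hT)
  obtain ⟨a, ha⟩ := Submodule.mem_span_singleton.mp ((Ideal.eq_top_iff_one _).mp h1)
  exact finite_of_torB S hS ht a ha

end Pool.Agent.MP_6a4325_al.H62
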